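import Mathlib
import Pool.Agent.Helper932.MMMain

set_option autoImplicit false
open Filter Topology

namespace Pool.Agent.Results.MP_438bde_an.NoFiniteContinuity

variable {X : Type} [NormedAddCommGroup X] [NormedSpace ℝ X]

/-- A real normed space is reflexive: every continuous linear functional on the dual is evaluation
at a point. -/
def Reflexive (X : Type) [NormedAddCommGroup X] [NormedSpace ℝ X] : Prop :=
  ∀ φ : (X →L[ℝ] ℝ) →L[ℝ] ℝ, ∃ x : X, ∀ f : X →L[ℝ] ℝ, φ f = f x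

/-- Monotone multivalued maps `X → 2^{X*}`. -/
def IsMono (T : X → Set (X →L[ℝ] ℝ)) : Prop :=
  ∀ u x : X, ∀ w ∈ T u, ∀ y ∈ T x, 0 ≤ (w - y) (u - x)

/-- Maximal monotone: monotone, and every monotone map whose graph contains the graph of `T`
has the same graph. -/
def IsMaxMono (T : X → Set (X →L[ℝ] ℝ)) : Prop :=
  IsMono T ∧ ∀ S : X → Set (X →L[ℝ] ℝ), IsMono S → (∀ u, T u ⊆ S u) → S = T

/-- `T₀` is bounded on bounded sets. -/
def BoundedMap (T0 : X → (X →L[ℝ] ℝ)) : Prop :=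
  ∀ B : Set X, Bornology.IsBounded B → Bornology.IsBounded (T0 '' B)

/-- `T₀` is `T`-pseudomonotone. -/
def IsPseudoMono (T : X → Set (X →L[ℝ] ℝ)) (T0 : X → (X →L[ℝ] ℝ)) : Prop :=
  ∀ (u : ℕ → X) (v : X) (y : ℕ → (X →L[ℝ] ℝ)),
    (∀ f : X →L[ℝ] ℝ, Tendsto (fun j => f (u j)) atTop (𝓝 (f v))) →
    (∀ j, y j ∈ T (u j)) →
    (∃ C : ℝ, ∀ j, ‖y j‖ ≤ C) →
    (∀ ε : ℝ, 0 < ε → ∀ᶠ j in atTop, (T0 (u j)) (u j - v) ≤ ε) →
    ((∀ φ : (X →L[ℝ] ℝ) →L[ℝ] ℝ,
        Tendsto (fun j => φ (T0 (u j))) atTop (𝓝 (φ (T0 v)))) ∧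
      Tendsto (fun j => (T0 (u j)) (u j - v)) atTop (𝓝 0))

/-- `S : X → 2^{X*}` is coercive. -/
def IsCoercive (S : X → Set (X →L[ℝ] ℝ)) : Prop :=
  ∀ c : ℝ, Bornology.IsBounded {u : X | ∃ w ∈ S u, w u ≤ c * ‖u‖}

/-- The map `T + T₀`. -/
def addMap (T : X → Set (X →L[ℝ] ℝ)) (T0 : X → (X →L[ℝ] ℝ)) (u : X) : Set (X →L[ℝ] ℝ) :=
  {w | ∃ y ∈ T u, w = y + T0 u}

/-- On a real reflexive Banach space, if `T` is maximal monotone, `T₀` is bounded and
`T`-pseudomonotone (no continuity is assumed), and `T + T₀` is coercive, then `T + T₀` is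
surjective. -/
theorem result (X : Type) [NormedAddCommGroup X] [NormedSpace ℝ X] [CompleteSpace X]
    (hX : Reflexive X) (T : X → Set (X →L[ℝ] ℝ)) (T0 : X → (X →L[ℝ] ℝ))
    (hT : IsMaxMono T) (hbd : BoundedMap T0) (hPM : IsPseudoMono T T0)
    (hco : IsCoercive (addMap T T0)) :
    ∀ f : X →L[ℝ] ℝ, ∃ u : X, f ∈ addMap T T0 u := by
  intro f
  have hmaxi : ∀ (x : X) (g : X →L[ℝ] ℝ),
      (∀ y : X, ∀ h ∈ T y, 0 ≤ (g - h) (x - y)) → g ∈ T x := by
    intro x g hg
    set S : X → Set (X →L[ℝ] ℝ) := fun u => T u ∪ {w | u = x ∧ w = g} with hS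
    have hSmono : IsMono S := by
      intro u v w hw y hy
      rcases hw with hw | ⟨hu, hw⟩ <;> rcases hy with hy | ⟨hv, hy⟩
      · exact hT.1 u v w hw y hy
      · have h1 := hg u w hw
        rw [hv, hy]
        have h2 : (w - g) (u - x) = (g - w) (x - u) := by
          simp only [sub_apply, map_sub]; ring
        rw [h2]; exact h1
      · rw [hu, hw]; exact hg v y hy
      · rw [hu, hv, hw, hy]; simp
    have hST := hT.2 S hSmono (fun u w hw => Or.inl hw)
    have : g ∈ S x := Or.inr ⟨rfl, rfl⟩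
    rw [hST] at this
    exact this
  have hT' : Pool.Agent.Helper932.MM.MaxMono T := ⟨hT.1, hmaxi⟩
  have hbd' : ∀ R : ℝ, ∃ M : ℝ, ∀ x : X, ‖x‖ ≤ R → ‖T0 x‖ ≤ M := by
    intro R
    obtain ⟨M, hM⟩ := (isBounded_iff_forall_norm_le.mp
      (hbd (Metric.closedBall 0 R) Metric.isBounded_closedBall))
    exact ⟨M, fun x hx => hM _ ⟨x, by simpa using hx, rfl⟩⟩
  have hPM' : Pool.Agent.Helper932.MM.PM T (fun x => T0 x - f) := by
    intro u v y hu hy hC hε
    have hfu : Tendsto (fun j => f (u j - v)) atTop (𝓝 0) := by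
      have h1 := (hu f).sub_const (f v)
      rw [sub_self] at h1
      simpa only [map_sub] using h1
    have h1 := hPM u v y hu hy hC (fun ε hεp => by
      have h2 : ∀ᶠ j in atTop, f (u j - v) < ε / 2 := hfu.eventually (gt_mem_nhds (by linarith))
      filter_upwards [hε (ε / 2) (by linarith), h2] with j h3 h4
      simp only [sub_apply] at h3
      linarith)
    refine ⟨fun φ => ?_, ?_⟩
    · simp only [map_sub]
      exact (h1.1 φ).sub_const _
    · have h2 := h1.2.sub hfu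
      rw [sub_zero] at h2
      simpa only [sub_apply] using h2
  obtain ⟨x, hx⟩ := Pool.Agent.Helper932.MM.main0 hX hT' (T0 := fun x => T0 x - f)
    (by
      intro R
      obtain ⟨M, hM⟩ := hbd' R
      exact ⟨M + ‖f‖, fun x hx => (norm_sub_le _ _).trans (add_le_add (hM x hx) le_rfl)⟩)
    hPM'
    (by
      intro M
      obtain ⟨R, hR⟩ := isBounded_iff_forall_norm_le.mp (hco (M + ‖f‖))
      refine ⟨R + 1, fun x y hy hx => ?_⟩
      have h0 : ¬ ((y + T0 x) x ≤ (M + ‖f‖) * ‖x‖) := by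
        intro h
        have := hR x ⟨y + T0 x, ⟨y, hy, rfl⟩, h⟩
        linarith
      push Not at h0
      have h2 := f.le_opNorm x
      rw [Real.norm_eq_abs] at h2
      have h3 := le_abs_self (f x)
      simp only [add_apply, sub_apply] at h0 ⊢
      linarith)
  refine ⟨x, -(T0 x - f), hx, ?_⟩
  abel

end Pool.Agent.Results.MP_438bde_an.NoFiniteContinuity
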